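import Mathlib

/-!
Strings of consecutive smooth integers (Balog and Wooley).

For every N and k there are arbitrarily large n such that for each j in [1,k]
every prime q dividing n - j satisfies q^N <= n - j + 1.

* `exists_primes`: finitely many primes larger than T with reciprocal sum at least r/2.
* `exists_M`: an M coprime to T with 2 N phi(M) <= M.
* `exists_base`: n = j * t_j ^ (M_j) for all j in [1,k] at once.
* `prime_dvd_pow_sub_one`: a prime divisor q of t^M - 1 satisfies q^N <= t^M.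
-/

namespace Pool.Agent.Lib.EWB

open Finset

lemma exists_primes (r : ℕ) : ∀ T : ℕ, ∃ F : Finset ℕ, (∀ p ∈ F, p.Prime ∧ T < p) ∧
    (r : ℝ) / 2 ≤ ∑ p ∈ F, (1 : ℝ) / p := by
  induction r with
  | zero => intro T; exact ⟨∅, by simp, by simp⟩
  | succ r ih =>
    intro T
    have h1 := one_half_le_sum_primes_ge_one_div (T + 1)
    set F1 : Finset ℕ := (4 ^ ((T + 1).primesBelow.card + 1)).succ.primesBelow \ (T + 1).primesBelow
      with hF1
    obtain ⟨F2, h2, h3⟩ := ih (T + 4 ^ ((T + 1).primesBelow.card + 1))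
    have hF1p : ∀ p ∈ F1, p.Prime ∧ T < p := by
      intro p hp
      rw [hF1, mem_sdiff] at hp
      have hpp := Nat.prime_of_mem_primesBelow hp.1
      refine ⟨hpp, ?_⟩
      by_contra hc
      exact hp.2 (Nat.mem_primesBelow.2 ⟨by omega, hpp⟩)
    have hdisj : Disjoint F1 F2 := by
      rw [Finset.disjoint_left]
      intro p hp hp2
      have h4 := (h2 p hp2).2
      rw [hF1, mem_sdiff] at hp
      have h5 := (Nat.mem_primesBelow.1 hp.1).1
      have : p ≤ 4 ^ ((T + 1).primesBelow.card + 1) := by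
        exact Nat.lt_succ_iff.1 h5
      omega
    refine ⟨F1 ∪ F2, ?_, ?_⟩
    · intro p hp
      rcases mem_union.1 hp with hp | hp
      · exact hF1p p hp
      · have := h2 p hp
        exact ⟨this.1, lt_of_le_of_lt (Nat.le_add_right _ _) this.2⟩
    · rw [sum_union hdisj]
      push_cast
      linarith

lemma exists_M (N T : ℕ) (hN : 0 < N) (hT : 0 < T) :
    ∃ M : ℕ, 0 < M ∧ Nat.Coprime M T ∧ 2 * N * M.totient ≤ M := by
  obtain ⟨F, hF, hsum⟩ := exists_primes (4 * N) T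
  refine ⟨∏ p ∈ F, p, ?_, ?_, ?_⟩
  · exact Finset.prod_pos fun p hp => (hF p hp).1.pos
  · apply Nat.Coprime.prod_left
    intro p hp
    rw [(hF p hp).1.coprime_iff_not_dvd]
    intro hd
    have := Nat.le_of_dvd hT hd
    have := (hF p hp).2
    omega
  · set M := ∏ p ∈ F, p with hM
    have hMpos : 0 < M := Finset.prod_pos fun p hp => (hF p hp).1.pos
    have hpf : M.primeFactors = F := Nat.primeFactors_prod fun p hp => (hF p hp).1
    have htot : ((M.totient : ℕ) : ℚ) = M * ∏ p ∈ M.primeFactors, (1 - (p : ℚ)⁻¹) :=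
      Nat.totient_eq_mul_prod_factors M
    have htotR : ((M.totient : ℕ) : ℝ) = M * ∏ p ∈ F, (1 - (p : ℝ)⁻¹) := by
      have h0 := congrArg (fun x : ℚ => (x : ℝ)) htot
      rw [hpf] at h0
      push_cast at h0
      exact h0
    have hprod : ∏ p ∈ F, (1 - (p : ℝ)⁻¹) ≤ Real.exp (-∑ p ∈ F, (1 : ℝ) / p) := by
      rw [← Finset.sum_neg_distrib, Real.exp_sum]
      apply Finset.prod_le_prod
      · intro p hp
        have h1 : (1 : ℝ) ≤ p := by exact_mod_cast (hF p hp).1.one_lt.le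
        have : (p : ℝ)⁻¹ ≤ 1 := inv_le_one_of_one_le₀ h1
        linarith
      · intro p hp
        have := Real.add_one_le_exp (-((1 : ℝ) / p))
        rw [one_div] at this ⊢
        linarith
    have hexp : Real.exp (-∑ p ∈ F, (1 : ℝ) / p) ≤ 1 / (2 * N) := by
      have h1 : (2 : ℝ) * N ≤ Real.exp (∑ p ∈ F, (1 : ℝ) / p) := by
        have h2 := Real.add_one_le_exp (∑ p ∈ F, (1 : ℝ) / p)
        push_cast at hsum
        linarith
      rw [Real.exp_neg, ← one_div]
      have hNpos : (0 : ℝ) < N := by exact_mod_cast hN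
      exact one_div_le_one_div_of_le (by positivity) h1
    have hNpos : (0 : ℝ) < N := by exact_mod_cast hN
    have hMR : (0 : ℝ) < M := by exact_mod_cast hMpos
    have hfin : (2 : ℝ) * N * M.totient ≤ M := by
      rw [htotR]
      calc (2 : ℝ) * N * (M * ∏ p ∈ F, (1 - (p : ℝ)⁻¹))
          ≤ 2 * N * (M * (1 / (2 * N))) := by
            have := hprod.trans hexp
            gcongr
        _ = M := by field_simp
    exact_mod_cast hfin

/-- A number `n` that is `j` times an `M_j`-th power for all `j` in `[1,k]`. -/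
lemma exists_base (N : ℕ) (hN : 0 < N) (k : ℕ) : ∃ n Q : ℕ, 0 < n ∧ 0 < Q ∧
    ∀ j, 1 ≤ j → j ≤ k → ∃ M t : ℕ, 0 < M ∧ 0 < t ∧ 2 * N * M.totient ≤ M ∧ M ∣ Q ∧
      n = j * t ^ M := by
  induction k with
  | zero => exact ⟨1, 1, one_pos, one_pos, fun j h1 h2 => by omega⟩
  | succ k ih =>
    obtain ⟨n, Q, hn, hQ, h⟩ := ih
    obtain ⟨M, hM, hcop, htot⟩ := exists_M N Q hN hQ
    have hcop' : Nat.Coprime Q M := hcop.symm
    -- u = 0 mod Q, u = 1 mod M
    obtain ⟨u, hu1, hu2⟩ := Nat.chineseRemainder hcop' 0 1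
    obtain ⟨v, hv1, hv2⟩ := Nat.chineseRemainder hcop' 1 0
    -- shift to make them positive
    obtain ⟨a, ha⟩ : Q ∣ u + Q * M := by
      have : Q ∣ u := (Nat.modEq_zero_iff_dvd).1 hu1
      exact dvd_add this (dvd_mul_right _ _)
    obtain ⟨b, hb⟩ : M ∣ (u + Q * M) - 1 := by
      have h1 : (1 : ℕ) ≡ u + Q * M [MOD M] := by
        have : u + Q * M ≡ 1 + 0 [MOD M] := Nat.ModEq.add hu2 ((Nat.modEq_zero_iff_dvd).2 (dvd_mul_left _ _))
        simpa using this.symm
      exact (Nat.modEq_iff_dvd' (by have : 0 < Q * M := by positivity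
                                    omega)).1 h1
    obtain ⟨c, hc⟩ : M ∣ v + Q * M := by
      have : M ∣ v := (Nat.modEq_zero_iff_dvd).1 hv2
      exact dvd_add this (dvd_mul_left _ _)
    obtain ⟨e, he⟩ : Q ∣ (v + Q * M) - 1 := by
      have h1 : (1 : ℕ) ≡ v + Q * M [MOD Q] := by
        have : v + Q * M ≡ 1 + 0 [MOD Q] := Nat.ModEq.add hv1 ((Nat.modEq_zero_iff_dvd).2 (dvd_mul_right _ _))
        simpa using this.symm
      exact (Nat.modEq_iff_dvd' (by have : 0 < Q * M := by positivity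
                                    omega)).1 h1
    have hQM : 0 < Q * M := by positivity
    have hU : u + Q * M = M * b + 1 := by omega
    have hV : v + Q * M = Q * e + 1 := by omega
    refine ⟨n ^ (v + Q * M) * (k + 1) ^ (u + Q * M), Q * M, by positivity, hQM, ?_⟩
    intro j hj1 hj2
    rcases Nat.lt_or_ge k j with hjk | hjk
    · have hjk' : j = k + 1 := by omega
      subst hjk'
      refine ⟨M, n ^ c * (k + 1) ^ b, hM, by positivity, htot, dvd_mul_left _ _, ?_⟩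
      rw [hc, hU, mul_pow, pow_succ, ← pow_mul, ← pow_mul]
      ring
    · obtain ⟨Mj, t, hMj, ht, hMjt, ⟨w, hw⟩, hnt⟩ := h j hj1 hjk
      refine ⟨Mj, t * (n ^ (w * e) * (k + 1) ^ (w * a)), hMj, by positivity, hMjt,
        Dvd.dvd.mul_right ⟨w, hw⟩ _, ?_⟩
      have h1 : n ^ (v + Q * M) = n * (n ^ (w * e)) ^ Mj := by
        rw [hV, pow_succ, hw, ← pow_mul]
        ring
      have h2 : (k + 1) ^ (u + Q * M) = ((k + 1) ^ (w * a)) ^ Mj := by
        rw [ha, hw, ← pow_mul]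
        ring
      rw [h1, h2, mul_pow, mul_pow]
      calc n * (n ^ (w * e)) ^ Mj * ((k + 1) ^ (w * a)) ^ Mj
          = (j * t ^ Mj) * (n ^ (w * e)) ^ Mj * ((k + 1) ^ (w * a)) ^ Mj := by rw [← hnt]
        _ = j * (t ^ Mj * ((n ^ (w * e)) ^ Mj * ((k + 1) ^ (w * a)) ^ Mj)) := by ring

lemma prime_dvd_pow_sub_one {N M t q : ℕ} (hM : 0 < M) (htot : 2 * N * M.totient ≤ M)
    (ht : 2 ≤ t) (hq : q.Prime) (hd : q ∣ t ^ M - 1) : q ^ N ≤ t ^ M := by
  have hpos : 1 ≤ t ^ M := Nat.one_le_pow _ _ (by omega)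
  have hdZ : (q : ℤ) ∣ (t : ℤ) ^ M - 1 := by
    have := Int.natCast_dvd_natCast.2 hd
    rw [Nat.cast_sub hpos] at this
    simpa using this
  have hprod := Polynomial.prod_cyclotomic_eq_X_pow_sub_one hM ℤ
  have hev : ∏ i ∈ M.divisors, (Polynomial.cyclotomic i ℤ).eval (t : ℤ) = (t : ℤ) ^ M - 1 := by
    rw [← Polynomial.eval_prod, hprod]
    simp
  rw [← hev] at hdZ
  obtain ⟨i, hi, hid⟩ := (Nat.prime_iff_prime_int.1 hq).exists_mem_finset_dvd hdZ
  have hiM : i ∣ M := Nat.dvd_of_mem_divisors hi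
  have hcpos : 0 < (Polynomial.cyclotomic i ℤ).eval (t : ℤ) :=
    Polynomial.cyclotomic_pos' i (by exact_mod_cast (by omega : 1 < t))
  have hqle : (q : ℤ) ≤ (Polynomial.cyclotomic i ℤ).eval (t : ℤ) := Int.le_of_dvd hcpos hid
  have hR : (Polynomial.cyclotomic i ℝ).eval (t : ℝ) ≤ ((t : ℝ) + 1) ^ i.totient :=
    Polynomial.cyclotomic_eval_le_add_one_pow_totient (by exact_mod_cast (by omega : 1 < t)) i
  have hcast : (((Polynomial.cyclotomic i ℤ).eval (t : ℤ) : ℤ) : ℝ)
      = (Polynomial.cyclotomic i ℝ).eval (t : ℝ) := by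
    have h0 := Polynomial.eval_intCast_map (Int.castRingHom ℝ) (Polynomial.cyclotomic i ℤ) (t : ℤ)
    rw [Polynomial.map_cyclotomic_int] at h0
    simp at h0
    exact h0.symm
  have hqR : (q : ℝ) ≤ ((t : ℝ) + 1) ^ i.totient := by
    calc (q : ℝ) = ((q : ℤ) : ℝ) := by simp
      _ ≤ (((Polynomial.cyclotomic i ℤ).eval (t : ℤ) : ℤ) : ℝ) := by exact_mod_cast hqle
      _ ≤ _ := by rw [hcast]; exact hR
  have hqN : q ≤ (t + 1) ^ i.totient := by exact_mod_cast hqR
  have ht2 : t + 1 ≤ t ^ 2 := by nlinarith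
  have htoti : i.totient ≤ M.totient := Nat.le_of_dvd (Nat.totient_pos.2 hM)
    (Nat.totient_dvd_of_dvd hiM)
  calc q ^ N ≤ ((t + 1) ^ i.totient) ^ N := Nat.pow_le_pow_left hqN N
    _ ≤ ((t ^ 2) ^ i.totient) ^ N := by gcongr
    _ = t ^ (2 * N * i.totient) := by rw [← pow_mul, ← pow_mul]; ring_nf
    _ ≤ t ^ M := Nat.pow_le_pow_right (by omega)
        (le_trans (Nat.mul_le_mul_left _ htoti) htot)

/-- Balog and Wooley: arbitrarily long strings of consecutive smooth integers. -/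
theorem smooth_run (N k T : ℕ) : ∃ n : ℕ, T + k + 2 ≤ n ∧ ∀ j, 1 ≤ j → j ≤ k →
    ∀ q : ℕ, q.Prime → q ∣ n - j → q ^ N ≤ n - j + 1 := by
  rcases Nat.eq_zero_or_pos N with hN | hN
  · subst hN
    refine ⟨T + k + 2, le_rfl, ?_⟩
    intro j _ _ q _ _
    simp
  obtain ⟨n, Q, hn, hQ, h⟩ := exists_base N hN k
  set z : ℕ := k ^ N + T + k + 2 with hz
  have hz2 : 2 ≤ z := by omega
  have hzQ : z ≤ z ^ Q := Nat.le_self_pow hQ.ne' z
  have hbig : z ≤ n * z ^ Q := le_trans hzQ (Nat.le_mul_of_pos_left _ hn)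
  refine ⟨n * z ^ Q, by omega, ?_⟩
  intro j hj1 hj2 q hq hd
  obtain ⟨M, t, hM, ht, htot, ⟨w, hw⟩, hnt⟩ := h j hj1 hj2
  have hw0 : 0 < w := by
    rcases Nat.eq_zero_or_pos w with h0 | h0
    · rw [h0] at hw; omega
    · exact h0
  set s : ℕ := t * z ^ w with hs
  have hs2 : 2 ≤ s := by
    have h1 : z ≤ z ^ w := Nat.le_self_pow hw0.ne' z
    have h2 : z ^ w ≤ t * z ^ w := Nat.le_mul_of_pos_left _ ht
    omega
  have hns : n * z ^ Q = j * s ^ M := by
    rw [hs, mul_pow, ← pow_mul, hw, hnt]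
    ring
  have hsM : 1 ≤ s ^ M := Nat.one_le_pow _ _ (by omega)
  have hfac : n * z ^ Q - j = j * (s ^ M - 1) := by
    rw [hns, Nat.mul_sub, mul_one]
  have hlow : z ≤ n * z ^ Q - j + k := by omega
  rw [hfac] at hd
  rcases (hq.dvd_mul).1 hd with hqj | hqs
  · have hqk : q ≤ k := le_trans (Nat.le_of_dvd (by omega) hqj) hj2
    have : q ^ N ≤ k ^ N := Nat.pow_le_pow_left hqk N
    omega
  · have h1 := prime_dvd_pow_sub_one (N := N) hM htot hs2 hq hqs
    rw [hfac]
    have h2 : s ^ M - 1 ≤ j * (s ^ M - 1) := Nat.le_mul_of_pos_left _ (by omega)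
    omega

end Pool.Agent.Lib.EWB
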